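import Mathlib

set_option autoImplicit false

namespace Pool.Agent.Results.MP_827700_an.UpperCont

open MeasureTheory Filter Topology Set
open scoped Pointwise ENNReal

/-- The trajectory `T_n(φ, C) = C + φ C + ⋯ + φ^(n-1) C`. -/
def traj {G : Type*} [AddCommGroup G] (φ : G → G) (C : Set G) (n : ℕ) : Set G :=
  ∑ i ∈ Finset.range n, φ^[i] '' C

/-- `limsup (log (a n)) / n`, in the extended reals. -/
noncomputable def rate (a : ℕ → ℝ≥0∞) : EReal :=
  limsup (fun n : ℕ => ((Real.log (a n).toReal / n : ℝ) : EReal)) atTop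

/-- The algebraic entropy of `φ`, computed with the measure `μ`. -/
noncomputable def entropy {G : Type*} [AddCommGroup G] [TopologicalSpace G] [MeasurableSpace G]
    (μ : Measure G) (φ : G → G) : EReal :=
  ⨆ (C : Set G) (_ : IsCompact C ∧ C ∈ 𝓝 (0 : G)), rate fun n => μ (traj φ C n)

lemma rate_le (a b : ℕ → ℝ≥0∞) (p q : ℝ≥0∞) (hp : p ≠ 0) (hp' : p ≠ ⊤) (hq : q ≠ ⊤)
    (ha : ∀ n, a (n + 1) ≠ 0) (hb : ∀ n, b n ≠ ⊤) (h : ∀ n, a (n + 2) * p ≤ b (n + 2) * q) :
    rate a ≤ rate b := by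
  refine EReal.le_of_forall_lt_iff_le.mp fun y hy => ?_
  obtain ⟨z, hz1, hz2⟩ := EReal.lt_iff_exists_real_btwn.mp hy
  have h1 := eventually_lt_of_limsup_lt hz1
  have h2 : ∀ᶠ n : ℕ in atTop, (Real.log q.toReal - Real.log p.toReal) / n < y - z :=
    (tendsto_const_div_atTop_nhds_zero_nat _).eventually
      (gt_mem_nhds (sub_pos.mpr (EReal.coe_lt_coe_iff.mp hz2)))
  refine limsup_le_of_le (by isBoundedDefault) ?_
  filter_upwards [h1, h2, eventually_ge_atTop 2] with n h3 h4 h5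
  obtain ⟨m, rfl⟩ := Nat.exists_eq_add_of_le' h5
  have h6 := h m
  have h7 : b (m + 2) * q ≠ ⊤ := ENNReal.mul_ne_top (hb _) hq
  have h8 : a (m + 2) * p ≠ 0 := mul_ne_zero (ha _) hp
  have h9 : a (m + 2) ≠ ⊤ := fun h0 => by
    rw [h0, ENNReal.top_mul hp] at h6
    exact h7 (top_le_iff.mp h6)
  have h10 : b (m + 2) * q ≠ 0 := fun h0 => h8 (le_zero_iff.mp (h0 ▸ h6))
  have h11 := Real.log_le_log (ENNReal.toReal_pos h8 (ENNReal.mul_ne_top h9 hp'))
    (ENNReal.toReal_mono h7 h6)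
  rw [ENNReal.toReal_mul, ENNReal.toReal_mul,
    Real.log_mul (ENNReal.toReal_pos (ha _) h9).ne' (ENNReal.toReal_pos hp hp').ne',
    Real.log_mul (ENNReal.toReal_pos (left_ne_zero_of_mul h10) (hb _)).ne'
      (ENNReal.toReal_pos (right_ne_zero_of_mul h10) hq).ne'] at h11
  rw [EReal.coe_lt_coe_iff] at h3
  rw [EReal.coe_le_coe_iff]
  have h12 : (0 : ℝ) < ((m + 2 : ℕ) : ℝ) := by positivity
  rw [div_lt_iff₀ h12] at h3 h4
  rw [div_le_iff₀ h12]
  linarith

section Alg

variable {G H : Type*} [AddCommGroup G] [AddCommGroup H]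

lemma traj_succ (φ : G → G) (C : Set G) (n : ℕ) :
    traj φ C (n + 1) = traj φ C n + φ^[n] '' C := Finset.sum_range_succ _ _

lemma image_traj (ι : H →+ G) (ψ : H → H) (φ : G → G) (h : ∀ x, ι (ψ x) = φ (ι x)) (C : Set H)
    (n : ℕ) : ι '' traj ψ C n = traj φ (ι '' C) n := by
  induction n with
  | zero => simp [traj, singleton_zero]
  | succ n ih =>
    rw [traj_succ, traj_succ, image_add, ih, image_image, image_image]
    congr 2
    ext x
    exact (Function.Semiconj.iterate_right h n) x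

lemma traj_succ' (φ : G →+ G) (C : Set G) (n : ℕ) :
    traj φ C (n + 1) = C + φ '' traj φ C n := by
  rw [image_traj φ φ φ (fun _ => rfl), traj, Finset.sum_range_succ', add_comm, traj]
  simp [image_image]

lemma traj_mono (φ : G → G) {C D : Set G} (h : C ⊆ D) (n : ℕ) : traj φ C n ⊆ traj φ D n := by
  induction n with
  | zero => simp [traj]
  | succ n ih => rw [traj_succ, traj_succ]; exact add_subset_add ih (image_mono h)

lemma zero_mem_traj (φ : G →+ G) {C : Set G} (h : (0 : G) ∈ C) (n : ℕ) : (0 : G) ∈ traj φ C n := by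
  induction n with
  | zero => simp [traj]
  | succ n ih => rw [traj_succ']; exact ⟨0, h, 0, ⟨0, ih, map_zero _⟩, add_zero _⟩

lemma sub_traj (φ : G →+ G) {C : Set G} (h : (0 : G) ∈ C) (n : ℕ) : C ⊆ traj φ C (n + 1) := by
  rw [traj_succ']
  exact fun x hx => ⟨x, hx, 0, ⟨0, zero_mem_traj φ h n, map_zero _⟩, add_zero _⟩

lemma traj_add (φ : G →+ G) (C : Set G) {W : Set G} (h : (0 : G) ∈ W) (n : ℕ) :
    traj φ C (n + 1) + W ⊆ traj φ (C + W) (n + 1) := by
  rw [traj_succ', traj_succ', add_right_comm]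
  exact add_subset_add_left (image_mono (traj_mono _ (subset_add_left _ h) n))

lemma traj_cover (φ : G →+ G) {C F : Set G} (h : C + φ '' C ⊆ F + C) (n : ℕ) :
    traj φ C (n + 1) ⊆ traj φ F n + C := by
  induction n with
  | zero => simp [traj]
  | succ n ih =>
    rw [traj_succ', traj_succ' φ F]
    refine (add_subset_add_left (image_mono ih)).trans ?_
    rw [image_add, add_left_comm, add_comm F, add_assoc]
    exact add_subset_add_left h

lemma traj_le_succ (φ : G →+ G) {C : Set G} (h : (0 : G) ∈ C) (n : ℕ) :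
    traj φ C n ⊆ traj φ C (n + 1) := by
  rw [traj_succ]
  refine subset_add_left _ ⟨0, h, ?_⟩
  exact Function.iterate_fixed (map_zero φ) n

lemma traj_compact [TopologicalSpace G] [IsTopologicalAddGroup G] (φ : G →+ G) (hφ : Continuous φ)
    {C : Set G} (h : IsCompact C) (n : ℕ) : IsCompact (traj φ C n) := by
  induction n with
  | zero => simp [traj]
  | succ n ih => rw [traj_succ']; exact h.add (ih.image hφ)

lemma csub [TopologicalSpace G] [IsTopologicalAddGroup G] {C : Set G} (h : IsCompact C) :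
    IsCompact (C - C) := by
  rw [sub_eq_add_neg]; exact h.add h.neg

end Alg

lemma cover {G : Type*} [AddCommGroup G] [TopologicalSpace G] [IsTopologicalAddGroup G] [T2Space G]
    [MeasurableSpace G] [BorelSpace G] (μ : Measure G) [μ.IsAddHaarMeasure] {S W : Set G}
    (hS : IsCompact S) (hW : IsCompact W) (hW0 : W ∈ 𝓝 (0 : G)) :
    ∃ X : Finset G, (X : Set G) ⊆ S ∧ X.card * μ W ≤ μ (S + W) ∧
      S ⊆ ⋃ x ∈ X, x +ᵥ (W - W) := by
  classical
  let P : Finset G → Prop := fun X => (X : Set G) ⊆ S ∧ (X : Set G).PairwiseDisjoint (· +ᵥ W)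
  have hP : ∀ X, P X → X.card * μ W ≤ μ (S + W) := by
    intro X hX
    have h1 := measure_biUnion_finset (μ := μ) hX.2
      (fun x _ => (hW.vadd x).measurableSet)
    simp only [measure_vadd, Finset.sum_const, nsmul_eq_mul] at h1
    rw [← h1]
    exact measure_mono (iUnion₂_subset fun x hx => vadd_set_subset_add (hX.1 hx))
  have hpos : μ W ≠ 0 := (μ.measure_pos_of_mem_nhds hW0).ne'
  have hbdd : BddAbove {n | ∃ X, P X ∧ X.card = n} := by
    obtain ⟨B, hB⟩ := ENNReal.exists_nat_gt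
      (ENNReal.div_ne_top (hS.add hW).measure_lt_top.ne hpos : μ (S + W) / μ W ≠ ⊤)
    refine ⟨B, ?_⟩
    rintro _ ⟨X, hX, rfl⟩
    have := (ENNReal.le_div_iff_mul_le (Or.inl hpos) (Or.inl hW.measure_lt_top.ne)).mpr (hP X hX)
    exact_mod_cast (this.trans hB.le)
  obtain ⟨X, hX, hc⟩ := Nat.sSup_mem (s := {n | ∃ X, P X ∧ X.card = n})
    ⟨0, ∅, ⟨by simp, by simp⟩, rfl⟩ hbdd
  refine ⟨X, hX.1, hP X hX, fun s hs => ?_⟩
  by_contra hn
  simp only [mem_iUnion, not_exists] at hn
  have h0 := mem_of_mem_nhds hW0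
  have hsX : s ∉ X := fun h => hn s h ⟨0, ⟨0, h0, 0, h0, sub_self _⟩, by simp⟩
  have h1 : P (insert s X) := by
    refine ⟨by simpa [insert_subset_iff] using ⟨hs, hX.1⟩, ?_⟩
    rw [Finset.coe_insert]
    refine hX.2.insert fun x hx _ => disjoint_left.mpr ?_
    rintro _ ⟨w, hw, rfl⟩ ⟨w', hw', e⟩
    refine hn x hx ⟨w' - w, ⟨w', hw', w, hw, rfl⟩, ?_⟩
    simp only [vadd_eq_add] at e ⊢
    rw [← add_sub_assoc, e, add_sub_cancel_right]
  have h2 := le_csSup hbdd ⟨_, h1, rfl⟩
  rw [Finset.card_insert_of_notMem hsX, ← hc] at h2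
  omega

theorem result (G : Type*) [AddCommGroup G] [TopologicalSpace G] [IsTopologicalAddGroup G]
    [T2Space G] [LocallyCompactSpace G] [MeasurableSpace G] [BorelSpace G]
    (μ : Measure G) [μ.IsAddHaarMeasure] (φ : G →+ G) (hφ : Continuous φ)
    (I : Type*) (K : I → AddSubgroup G) (hcl : ∀ i, IsClosed (K i : Set G))
    (hinv : ∀ i, ∀ x ∈ K i, φ x ∈ K i) (hdir : Directed (· ≤ ·) K)
    (hun : ∀ x, ∃ i, x ∈ K i) (ν : ∀ i, Measure (K i)) [∀ i, (ν i).IsAddHaarMeasure] :
    entropy μ φ = ⨆ i, entropy (ν i) (fun x : K i => (⟨φ x, hinv i x x.2⟩ : K i)) := by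
  classical
  let ψ : ∀ i, K i →+ K i := fun i => (φ.comp (K i).subtype).codRestrict _ fun x => hinv i x x.2
  have hψ : ∀ i, Continuous (ψ i) := fun i =>
    (hφ.comp continuous_subtype_val).subtype_mk _
  have him := fun i => image_traj (K i).subtype (ψ i) φ fun _ => rfl
  have hemb : ∀ i, IsClosedEmbedding (K i).subtype := fun i => (hcl i).isClosedEmbedding_subtypeVal
  change _ = ⨆ i, entropy (ν i) (ψ i)
  apply le_antisymm
  · refine iSup₂_le fun C ⟨hC, hC0⟩ => ?_
    obtain ⟨F, -, hF⟩ := (hC.add (hC.image hφ)).elim_nhds_subcover (fun x => x +ᵥ C)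
      (fun x _ => by simpa using vadd_mem_nhds_vadd x hC0)
    have : Nonempty I := ⟨(hun 0).choose⟩
    obtain ⟨i, hi⟩ := hdir.finset_le (F.image fun x => (hun x).choose)
    have := (hemb i).locallyCompactSpace
    obtain ⟨V, hV, hV0⟩ := exists_compact_mem_nhds (0 : K i)
    let D : Set (K i) := (K i).subtype ⁻¹' F ∪ V
    have hD : IsCompact D := ((hemb i).isCompact_preimage F.finite_toSet.isCompact).union hV
    have hD0 : D ∈ 𝓝 (0 : K i) := mem_of_superset hV0 subset_union_right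
    have hFD : C + φ '' C ⊆ (K i).subtype '' D + C := by
      intro y hy
      obtain ⟨x, hx, c, hc, rfl⟩ := mem_iUnion₂.mp (hF hy)
      exact ⟨x, ⟨⟨x, hi _ (Finset.mem_image_of_mem _ hx) (hun x).choose_spec⟩, Or.inl hx, rfl⟩,
        c, hc, rfl⟩
    have h0 := mem_of_mem_nhds hD0
    have hE : IsCompact ((K i).subtype '' (D - D) + C) :=
      ((csub hD).image (hemb i).continuous).add hC
    refine le_iSup_of_le i (le_iSup₂_of_le (D + D) ⟨hD.add hD,
      mem_of_superset hD0 (subset_add_left _ h0)⟩ ?_)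
    refine rate_le _ _ (ν i D) (μ ((K i).subtype '' (D - D) + C))
      ((ν i).measure_pos_of_mem_nhds hD0).ne' hD.measure_lt_top.ne hE.measure_lt_top.ne
      (fun n => (μ.measure_pos_of_mem_nhds (mem_of_superset hC0
        (sub_traj φ (mem_of_mem_nhds hC0) n))).ne')
      (fun n => (traj_compact _ (hψ i) (hD.add hD) n).measure_lt_top.ne) fun n => ?_
    obtain ⟨X, -, h1, h2⟩ := cover (ν i) (traj_compact _ (hψ i) hD (n + 1)) hD hD0
    have h3 : traj φ C (n + 2) ⊆ ⋃ x ∈ X, (x : G) +ᵥ ((K i).subtype '' (D - D) + C) := by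
      refine (traj_cover φ hFD _).trans ?_
      rw [← him]
      rintro _ ⟨_, ⟨s, hs, rfl⟩, c, hc, rfl⟩
      obtain ⟨x, hx, d, hd, rfl⟩ := mem_iUnion₂.mp (h2 hs)
      exact mem_iUnion₂.mpr ⟨x, hx, _, ⟨_, ⟨d, hd, rfl⟩, c, hc, rfl⟩, by simp [add_assoc]⟩
    have h4 := (measure_mono (μ := μ) h3).trans (measure_biUnion_finset_le _ _)
    simp only [measure_vadd, Finset.sum_const, nsmul_eq_mul] at h4
    have h5 := h1.trans (measure_mono ((traj_add _ D h0 n).trans
      (traj_le_succ _ (subset_add_left _ h0 h0) _)))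
    calc _ ≤ X.card * μ ((K i).subtype '' (D - D) + C) * ν i D := by gcongr
      _ = X.card * ν i D * μ ((K i).subtype '' (D - D) + C) := mul_right_comm _ _ _
      _ ≤ _ := by gcongr
  · refine iSup_le fun i => iSup₂_le fun D ⟨hD, hD0⟩ => ?_
    obtain ⟨W, hW, hW0⟩ := exists_compact_mem_nhds (0 : G)
    have h0 := mem_of_mem_nhds hW0
    have hD' := hD.image (hemb i).continuous
    have hE : IsCompact ((K i).subtype ⁻¹' (W - W)) := (hemb i).isCompact_preimage (csub hW)
    refine le_iSup₂_of_le ((K i).subtype '' D + W) ⟨hD'.add hW, mem_of_superset hW0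
      (subset_add_right _ ⟨0, mem_of_mem_nhds hD0, rfl⟩)⟩ ?_
    refine rate_le _ _ (μ W) (ν i ((K i).subtype ⁻¹' (W - W)))
      (μ.measure_pos_of_mem_nhds hW0).ne' hW.measure_lt_top.ne hE.measure_lt_top.ne
      (fun n => ((ν i).measure_pos_of_mem_nhds (mem_of_superset hD0
        (sub_traj _ (mem_of_mem_nhds hD0) n))).ne')
      (fun n => (traj_compact _ hφ (hD'.add hW) n).measure_lt_top.ne) fun n => ?_
    obtain ⟨X, h1, h2, h3⟩ := cover μ (traj_compact _ hφ hD' (n + 2)) hW hW0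
    rw [← him] at h1 h3
    have h4 := (measure_mono (μ := ν i) (image_subset_iff.mp h3))
    rw [preimage_iUnion₂] at h4
    replace h4 := h4.trans (measure_biUnion_finset_le _ _)
    rw [Finset.sum_congr rfl (g := fun _ => ν i ((K i).subtype ⁻¹' (W - W))) fun x hx => by
      obtain ⟨y, -, rfl⟩ := h1 hx
      rw [← measure_vadd (ν i) y ((K i).subtype ⁻¹' (W - W))]
      congr 1
      ext z
      simp [mem_vadd_set_iff_neg_vadd_mem], Finset.sum_const, nsmul_eq_mul] at h4
    have h5 := h2.trans (measure_mono (traj_add φ _ h0 (n + 1)))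
    calc _ ≤ X.card * ν i ((K i).subtype ⁻¹' (W - W)) * μ W := by gcongr
      _ = X.card * μ W * ν i ((K i).subtype ⁻¹' (W - W)) := mul_right_comm _ _ _
      _ ≤ _ := by gcongr

end Pool.Agent.Results.MP_827700_an.UpperCont
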